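import Pool.Agent.H82.AS.Targets

/-!
# The function `gT` (MP_7ecdd4_nt, row GTB)
-/

set_option autoImplicit false

open Pool.Agent.H38.RB Pool.Agent.H38.PS Pool.Agent.H82.AS

namespace Pool.Agent.H72.AS

open MeasureTheory

theorem gT_iff {T a b : ℝ} (ha : 0 < a) (hb : 0 < b) : a * b * (a + b) ≤ T ↔ b ≤ gT T a := by
  have h1 : b ≤ gT T a ↔ 2 * b + a ≤ Real.sqrt (a ^ 2 + 4 * T / a) := by
    unfold gT
    constructor <;> intro h <;> linarith
  rw [h1, Real.le_sqrt' (by positivity)]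
  have h2 : (2 * b + a) ^ 2 ≤ a ^ 2 + 4 * T / a ↔ 4 * (b * (a + b)) ≤ 4 * T / a := by
    constructor <;> intro h <;> nlinarith
  rw [h2, le_div_iff₀ ha]
  constructor <;> intro h <;> nlinarith

theorem gT_nonneg {T a : ℝ} (hT : 0 ≤ T) (ha : 0 < a) : 0 ≤ gT T a := by
  have h1 : a ≤ Real.sqrt (a ^ 2 + 4 * T / a) := by
    apply Real.le_sqrt_of_sq_le
    have : 0 ≤ 4 * T / a := by positivity
    linarith
  unfold gT
  linarith

theorem gT_le1 {T a : ℝ} (hT : 0 ≤ T) (ha : 0 < a) : gT T a ≤ Real.sqrt (T / a) := by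
  have h0 : 0 ≤ T / a := by positivity
  have h1 : Real.sqrt (a ^ 2 + 4 * T / a) ≤ a + 2 * Real.sqrt (T / a) := by
    rw [Real.sqrt_le_left (by positivity)]
    have h2 : Real.sqrt (T / a) ^ 2 = T / a := Real.sq_sqrt h0
    have h3 : 0 ≤ a * Real.sqrt (T / a) := by positivity
    have h4 : 4 * T / a = 4 * (T / a) := by ring
    rw [h4]
    nlinarith
  unfold gT
  linarith

theorem gT_le2 {T a : ℝ} (hT : 0 ≤ T) (ha : 0 < a) : gT T a ≤ T / a ^ 2 := by
  have h1 : Real.sqrt (a ^ 2 + 4 * T / a) ≤ a + 2 * (T / a ^ 2) := by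
    rw [Real.sqrt_le_left (by positivity)]
    have h2 : (a + 2 * (T / a ^ 2)) ^ 2 = a ^ 2 + 4 * T / a + 4 * (T / a ^ 2) ^ 2 := by
      field_simp
      ring
    rw [h2]
    have : 0 ≤ 4 * (T / a ^ 2) ^ 2 := by positivity
    linarith
  unfold gT
  linarith

theorem gT_anti {T : ℝ} (hT : 0 ≤ T) : AntitoneOn (gT T) (Set.Ioi 0) := by
  intro a ha a' ha' h
  have ha0 : 0 < a := ha
  have ha0' : 0 < a' := ha'
  rcases (gT_nonneg hT ha0').eq_or_lt with h1 | h1
  · rw [← h1]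
    exact gT_nonneg hT ha0
  · rw [← gT_iff ha0 h1]
    refine le_trans ?_ ((gT_iff ha0' h1).2 le_rfl)
    gcongr

theorem gT_meas (T : ℝ) : Measurable (gT T) := by
  unfold gT
  fun_prop

theorem gT_int {T : ℝ} (hT : 0 ≤ T) : IntegrableOn (gT T) (Set.Ioi 0) := by
  rw [← Set.Ioc_union_Ioi_eq_Ioi (zero_le_one (α := ℝ))]
  apply IntegrableOn.union
  · have h1 : IntegrableOn (fun x : ℝ => x ^ (-1 / 2 : ℝ)) (Set.Ioc 0 1) := by
      rw [← intervalIntegrable_iff_integrableOn_Ioc_of_le zero_le_one]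
      exact intervalIntegral.intervalIntegrable_rpow' (by norm_num)
    refine Integrable.mono' (h1.const_mul (Real.sqrt T)) (gT_meas T).aestronglyMeasurable ?_
    refine (ae_restrict_iff' measurableSet_Ioc).2 (Filter.Eventually.of_forall fun a ha => ?_)
    rw [Real.norm_of_nonneg (gT_nonneg hT ha.1)]
    refine (gT_le1 hT ha.1).trans (le_of_eq ?_)
    rw [Real.sqrt_div hT, div_eq_mul_inv, neg_div, Real.rpow_neg ha.1.le, Real.sqrt_eq_rpow a]
  · have h1 : IntegrableOn (fun x : ℝ => x ^ (-2 : ℝ)) (Set.Ioi 1) :=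
      integrableOn_Ioi_rpow_of_lt (by norm_num) one_pos
    refine Integrable.mono' (h1.const_mul T) (gT_meas T).aestronglyMeasurable ?_
    refine (ae_restrict_iff' measurableSet_Ioi).2 (Filter.Eventually.of_forall fun a ha => ?_)
    have ha0 : 0 < a := lt_trans one_pos ha
    rw [Real.norm_of_nonneg (gT_nonneg hT ha0)]
    refine (gT_le2 hT ha0).trans (le_of_eq ?_)
    rw [Real.rpow_neg ha0.le, Real.rpow_two, div_eq_mul_inv]

theorem gT_scale {c x : ℝ} (hc : 0 < c) (hx : 0 < x) : gT (c ^ 3) (c * x) = c * gT 1 x := by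
  unfold gT
  have h1 : (c * x) ^ 2 + 4 * c ^ 3 / (c * x) = c ^ 2 * (x ^ 2 + 4 * 1 / x) := by
    field_simp
  rw [h1, Real.sqrt_mul (by positivity), Real.sqrt_sq hc.le]
  ring

theorem gT_integral {T : ℝ} (hT : 0 ≤ T) :
    ∫ a in Set.Ioi (0 : ℝ), gT T a = AR * T ^ (2 / 3 : ℝ) := by
  rcases hT.eq_or_lt with h0 | h0
  · rw [← h0, Real.zero_rpow (by norm_num), mul_zero]
    have h1 : ∀ a ∈ Set.Ioi (0 : ℝ), gT 0 a = 0 := by
      intro a ha
      have ha0 : 0 < a := ha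
      unfold gT
      rw [mul_zero, zero_div, add_zero, Real.sqrt_sq ha0.le]
      ring
    rw [setIntegral_congr_fun measurableSet_Ioi h1]
    simp
  · set c : ℝ := T ^ (1 / 3 : ℝ) with hc
    have hc0 : 0 < c := by positivity
    have hc3 : c ^ 3 = T := by
      rw [hc, ← Real.rpow_natCast, ← Real.rpow_mul hT]
      norm_num
    have hc2 : c ^ 2 = T ^ (2 / 3 : ℝ) := by
      rw [hc, ← Real.rpow_natCast, ← Real.rpow_mul hT]
      norm_num
    have h1 := MeasureTheory.integral_comp_mul_left_Ioi (gT T) 0 hc0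
    rw [mul_zero, smul_eq_mul] at h1
    have h2 : ∫ x in Set.Ioi (0 : ℝ), gT T (c * x) = c * AR := by
      have h3 : ∀ a ∈ Set.Ioi (0 : ℝ), gT T (c * a) = c * gT 1 a := by
        intro a ha
        rw [← hc3]
        exact gT_scale hc0 ha
      rw [setIntegral_congr_fun measurableSet_Ioi h3, AR]
      exact integral_const_mul c _
    rw [h2] at h1
    have h4 : ∫ a in Set.Ioi (0 : ℝ), gT T a = c * (c * AR) := by
      rw [h1]
      field_simp
    rw [h4, ← hc2]
    ring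

theorem pf_GTB : T_GTB := fun T hT =>
  ⟨fun _ _ ha hb => gT_iff ha hb, gT_anti hT,
    fun _ ha => ⟨gT_nonneg hT ha, gT_le1 hT ha, gT_le2 hT ha⟩, gT_int hT, gT_integral hT⟩

end Pool.Agent.H72.AS
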